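import Pool.Agent.Helper70.BI.HH.StHA

/-!
# Project BI, stage 7 (H), module CCD: the sphere of a closed 2-cell at the constant path
-/

set_option autoImplicit false

open scoped Topology unitInterval
open Set Pool.Agent.Helper65.Barb Pool.Agent.Helper18.BI
open Pool.Agent.Helper18.FinR (sqr)
open Pool.Agent.Helper18.BI.R (S2)
open Pool.Agent.Helper70.T

namespace Pool.Agent.Helper70.HH

namespace CCD

/-- the projection to the unit interval -/
private noncomputable def pr (x : ℝ) : I := projIcc (0 : ℝ) 1 zero_le_one x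

private theorem cont_pr : Continuous pr := continuous_projIcc (h := zero_le_one)

private theorem pr_of_mem {x : ℝ} (h : x ∈ Icc (0 : ℝ) 1) : pr x = ⟨x, h⟩ :=
  projIcc_of_mem zero_le_one h

private theorem pr_coe (x : I) : pr (x : ℝ) = x := projIcc_val zero_le_one x

private theorem pr_le {x : ℝ} (h : x ≤ 0) : pr x = 0 := projIcc_of_le_left zero_le_one h

private theorem pr_ge {x : ℝ} (h : 1 ≤ x) : pr x = 1 := projIcc_of_right_le zero_le_one h

variable {X : Type} [TopologicalSpace X] {y₀ : X}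

private theorem f_bd (f : GenLoop (Fin 2) X y₀) (a b : I)
    (h : a = 0 ∨ a = 1 ∨ b = 0 ∨ b = 1) : f ![a, b] = y₀ := by
  refine f.2 _ ?_
  rcases h with h | h | h | h
  · exact ⟨0, Or.inl h⟩
  · exact ⟨0, Or.inr h⟩
  · exact ⟨1, Or.inl h⟩
  · exact ⟨1, Or.inr h⟩

private theorem cont_vec {Y : Type} [TopologicalSpace Y] {a b : Y → I} (ha : Continuous a)
    (hb : Continuous b) : Continuous fun y => (![a y, b y] : Fin 2 → I) := by
  refine continuous_pi fun i => ?_
  fin_cases i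
  · exact ha
  · exact hb

private theorem vec_eta (t : Fin 2 → I) : (![t 0, t 1] : Fin 2 → I) = t := by
  funext i
  fin_cases i <;> rfl

private theorem lam_mem (t : I) : lam t ∈ Icc (0 : ℝ) 1 := by
  have h0 : (0 : ℝ) ≤ t := t.2.1
  have h1 : (t : ℝ) ≤ 1 := t.2.2
  unfold lam
  exact ⟨le_min zero_le_one (le_min (by linarith) (by linarith)), min_le_left _ _⟩

private theorem tau_mem (t : I) : tau t ∈ Icc (0 : ℝ) 1 := by
  have h0 : (0 : ℝ) ≤ t := t.2.1
  have h1 : (t : ℝ) ≤ 1 := t.2.2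
  unfold tau
  refine ⟨le_min (by linarith) (by linarith), ?_⟩
  rcases le_total (t : ℝ) (1 / 2) with h | h
  · exact (min_le_left _ _).trans (by linarith)
  · exact (min_le_right _ _).trans (by linarith)

/-- the map of the sphere -/
private noncomputable def hh (f : GenLoop (Fin 2) X y₀) (m : R3) : X :=
  sph2 (fun z => f ![pr z.1, pr z.2]) m

private theorem val_qq (f : GenLoop (Fin 2) X y₀)
    (hv : ∀ ρ ∈ Icc (0 : ℝ) 1, ∀ v ∈ Icc (0 : ℝ) 1,
      hh f (PP (2 * Real.pi * ρ) v) = f ![pr ρ, pr v]) (t : Fin 2 → I) :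
    hh f (T.qq t) = f ![pr (3 * (t 0 : ℝ) - 1), pr (2 * (t 1 : ℝ))] := by
  have hl := lam_mem (t 0)
  have ht := tau_mem (t 1)
  have hlt : lam (t 0) * tau (t 1) ∈ Icc (0 : ℝ) 1 :=
    ⟨mul_nonneg hl.1 ht.1, mul_le_one₀ hl.2 ht.1 ht.2⟩
  unfold T.qq
  split_ifs with h
  · have hρ : max 0 (min 1 (3 * (t 0 : ℝ) - 1)) ∈ Icc (0 : ℝ) 1 :=
      ⟨le_max_left _ _, max_le zero_le_one (min_le_left _ _)⟩
    unfold rho
    rw [hv _ hρ _ hlt]
    rcases le_or_gt (3 * (t 0 : ℝ) - 1) 0 with h1 | h1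
    · rw [f_bd _ _ _ (Or.inl (pr_le h1)), f_bd _ _ _ (Or.inl (pr_le ?_))]
      exact max_le le_rfl ((min_le_right _ _).trans h1)
    rcases le_or_gt 1 (3 * (t 0 : ℝ) - 1) with h2 | h2
    · rw [f_bd _ _ _ (Or.inr (Or.inl (pr_ge h2))), f_bd _ _ _ (Or.inr (Or.inl (pr_ge ?_)))]
      exact le_max_of_le_right (le_min le_rfl h2)
    · have e1 : max 0 (min 1 (3 * (t 0 : ℝ) - 1)) = 3 * (t 0 : ℝ) - 1 := by
        rw [min_eq_right h2.le, max_eq_right h1.le]
      have e2 : lam (t 0) = 1 := by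
        unfold lam
        rw [min_eq_left]
        exact le_min (by linarith) (by linarith)
      have e3 : tau (t 1) = 2 * (t 1 : ℝ) := by
        unfold tau
        rw [min_eq_left]
        linarith
      rw [e1, e2, e3, one_mul]
  · have h' : 1 ≤ 2 * (t 1 : ℝ) := by
      rw [not_le] at h
      linarith
    have e : (0 : ℝ) = 2 * Real.pi * 0 := by ring
    rw [e, hv 0 ⟨le_rfl, zero_le_one⟩ _ hlt, f_bd _ _ _ (Or.inl (pr_le le_rfl)),
      f_bd _ _ _ (Or.inr (Or.inr (Or.inr (pr_ge h'))))]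

/-- the homotopy to `f` -/
private theorem free_qq (f : GenLoop (Fin 2) X y₀)
    (hv : ∀ ρ ∈ Icc (0 : ℝ) 1, ∀ v ∈ Icc (0 : ℝ) 1,
      hh f (PP (2 * Real.pi * ρ) v) = f ![pr ρ, pr v]) :
    Hfree (fun t => hh f (T.qq t)) f := by
  refine ⟨fun z => f ![pr ((3 - 2 * z.1) * (z.2 0 : ℝ) - (1 - z.1)), pr ((2 - z.1) * (z.2 1 : ℝ))],
    ?_, ?_, ?_, ?_⟩
  · refine Continuous.continuousOn (f.1.continuous.comp (cont_vec ?_ ?_))
    · exact cont_pr.comp (by fun_prop)
    · exact cont_pr.comp (by fun_prop)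
  · intro t
    show f ![pr ((3 - 2 * (0 : ℝ)) * (t 0 : ℝ) - (1 - 0)), pr ((2 - (0 : ℝ)) * (t 1 : ℝ))] =
      hh f (T.qq t)
    rw [val_qq f hv t]
    have e1 : (3 - 2 * (0 : ℝ)) * (t 0 : ℝ) - (1 - 0) = 3 * (t 0 : ℝ) - 1 := by ring
    have e2 : (2 - (0 : ℝ)) * (t 1 : ℝ) = 2 * (t 1 : ℝ) := by ring
    simp only [e1, e2]
  · intro t
    have e1 : (3 - 2 * (1 : ℝ)) * (t 0 : ℝ) - (1 - 1) = t 0 := by ring
    have e2 : (2 - (1 : ℝ)) * (t 1 : ℝ) = t 1 := by ring
    simp only [e1, e2, pr_coe, vec_eta]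
  · have key : ∀ u ∈ Icc (0 : ℝ) 1, ∀ t ∈ Cube.boundary (Fin 2),
        f ![pr ((3 - 2 * u) * (t 0 : ℝ) - (1 - u)), pr ((2 - u) * (t 1 : ℝ))] = y₀ := by
      rintro u ⟨hu0, hu1⟩ t ht
      refine f_bd _ _ _ ?_
      obtain ⟨i, hi⟩ := ht
      fin_cases i
      · rcases hi with hi | hi
        · left
          have h : t 0 = 0 := hi
          rw [h]
          refine pr_le ?_
          show (3 - 2 * u) * (0 : ℝ) - (1 - u) ≤ 0
          linarith
        · right
          left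
          have h : t 0 = 1 := hi
          rw [h]
          refine pr_ge ?_
          show 1 ≤ (3 - 2 * u) * (1 : ℝ) - (1 - u)
          linarith
      · rcases hi with hi | hi
        · right
          right
          left
          have h : t 1 = 0 := hi
          rw [h]
          refine pr_le ?_
          show (2 - u) * (0 : ℝ) ≤ 0
          linarith
        · right
          right
          right
          have h : t 1 = 1 := hi
          rw [h]
          refine pr_ge ?_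
          show 1 ≤ (2 - u) * (1 : ℝ)
          linarith
    intro u hu t ht t' ht'
    show f _ = f _
    rw [key u hu t ht, key u hu t' ht']

end CCD

open CCD in
/-- MODULE CCD.  The sphere of a closed 2-cell at the constant path. -/
theorem m_CCD (hSQR : StSQR) (hPQ : StPQ) : StCCD := by
  intro X _ y₀ sq hsq f γ hγ
  have a1 : Continuous fun z : Unit × ℝ × ℝ => f ![pr z.2.1, pr z.2.2] :=
    f.1.continuous.comp (cont_vec (cont_pr.comp (continuous_fst.comp continuous_snd))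
      (cont_pr.comp (continuous_snd.comp continuous_snd)))
  have a2 : ∀ v : ℝ, f ![pr 0, pr v] = y₀ := fun v => f_bd f _ _ (Or.inl (pr_le le_rfl))
  have a3 : ∀ v : ℝ, f ![pr 1, pr v] = y₀ := fun v => f_bd f _ _ (Or.inr (Or.inl (pr_ge le_rfl)))
  have a4 : ∀ ρ : ℝ, f ![pr ρ, pr 0] = y₀ := fun ρ =>
    f_bd f _ _ (Or.inr (Or.inr (Or.inl (pr_le le_rfl))))
  have a5 : ∀ ρ : ℝ, f ![pr ρ, pr 1] = y₀ := fun ρ =>
    f_bd f _ _ (Or.inr (Or.inr (Or.inr (pr_ge le_rfl))))
  obtain ⟨hc, hv⟩ := hPQ X Unit (fun z => f ![pr z.2.1, pr z.2.2]) a1.continuousOn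
    (fun _ v _ => (a2 v).trans (a3 v).symm) (fun _ ρ _ => (a4 ρ).trans (a2 0).symm)
    (fun _ ρ _ => (a5 ρ).trans (a2 1).symm)
  have hcont : ContinuousOn (hh f) S2 := by
    have h1 : Continuous fun m : R3 => (((), m) : Unit × R3) :=
      continuous_const.prodMk continuous_id
    have h2 := hc.comp h1.continuousOn (s := S2) (fun m hm => ⟨mem_univ _, hm⟩)
    have h3 : (fun p : Unit × R3 => sph2 (fun q => f ![pr q.1, pr q.2]) p.2) ∘
        (fun m : R3 => (((), m) : Unit × R3)) = hh f := rfl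
    rw [← h3]
    exact h2
  have e : sphP γ = fun t => hh f (sqr t) := by
    funext t
    unfold sphP CCD.hh sph2
    exact hγ _ _
  obtain ⟨G, g1, g2, g3, g4, g5⟩ := hSQR
  have h1 : Hfree (fun t => hh f (T.qq t)) (fun t => hh f (sqr t)) := by
    refine ⟨fun z => hh f (G z), hcont.comp g1 fun z hz => g2 z.1 hz.1 z.2, ?_, ?_, ?_⟩
    · intro t
      show hh f (G (0, t)) = _
      rw [g3]
    · intro t
      show hh f (G (1, t)) = _
      rw [g4]
    · intro u hu t ht t' ht'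
      show hh f (G (u, t)) = hh f (G (u, t'))
      rw [g5 u hu t ht, g5 u hu t' ht']
  rw [e, ← hsq.free _ _ h1, hsq.free _ _ (free_qq f (fun ρ hρ v hv' => hv () ρ hρ v hv')),
    hsq.base]

end Pool.Agent.Helper70.HH
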